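import Pool.Agent.N226.BI.Raw



/-!
# Binarizations of one letter of the candidate bound-secret distribution

For the distribution `P` of `(X, Y)` with parameter `a` and Eve's variable `Z`, let `HasChannel a N` be
the property asked for in Q1: for every pair of binarizations of `X^N` and `Y^N` there is a channel of
`Z^N` given which they are conditionally independent. We prove `HasChannel a 1` for every `a ≥ 32`, and
that `HasChannel a 1` fails for `0 < a < 1/8`.

The channel for `a ≥ 32`: the symbols `0`, `1` of Eve are each mixed with suitable parts of the eight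
known cells (or are both merged in one group), so that the covariance of the two binarizations in the
group is zero. The masses are found by the intermediate value theorem.
-/

namespace Pool.Agent.Results.MP_c084cb_lc.SingleLetter

open Finset

/-- The weights: `1/8` on `{0,1}²`, `a` on the eight mixed cells, `1/4` on `(2,2)`, `(3,3)`,
and `0` on `(2,3)`, `(3,2)`. -/
noncomputable def w (a : ℝ) (x y : Fin 4) : ℝ :=
  if x < 2 ∧ y < 2 then 1 / 8
  else if 2 ≤ x ∧ 2 ≤ y then (if x = y then 1 / 4 else 0)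
  else a

/-- The law of `(X, Y)`. -/
noncomputable def P (a : ℝ) (x y : Fin 4) : ℝ := w a x y / (1 + 8 * a)

/-- The symbols of Eve: `inl 0`, `inl 1` are `0`, `1`; `inr (x, y)` is the pair `(x, y)`. -/
abbrev Sym := Fin 2 ⊕ (Fin 4 × Fin 4)

/-- Eve's variable: `x + y mod 2` on `{0,1}²`, `x mod 2` on `{2,3}²`, and `(x, y)` otherwise. -/
def Z (x y : Fin 4) : Sym :=
  if x < 2 ∧ y < 2 then Sum.inl (if (x.val + y.val) % 2 = 0 then 0 else 1)
  else if 2 ≤ x ∧ 2 ≤ y then Sum.inl (if x.val % 2 = 0 then 0 else 1)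
  else Sum.inr (x, y)

/-- A random bit that is `1` with probability `t`. -/
def bit (t : ℝ) (i : Fin 2) : ℝ := if i = 1 then t else 1 - t

/-- A binarization: the probability of the output `1` for each input. -/
def IsBin {N : ℕ} (f : (Fin N → Fin 4) → ℝ) : Prop := ∀ x, 0 ≤ f x ∧ f x ≤ 1

/-- A channel from `Sym^N` to the countable set `ℕ`. -/
def IsChannel {N : ℕ} (W : (Fin N → Sym) → ℕ → ℝ) : Prop :=
  ∀ z, (∀ k, 0 ≤ W z k) ∧ HasSum (W z) 1

/-- The joint law of the output `k` of Eve's channel and the two bits `i`, `j`. -/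
noncomputable def J (a : ℝ) {N : ℕ} (f g : (Fin N → Fin 4) → ℝ) (W : (Fin N → Sym) → ℕ → ℝ)
    (k : ℕ) (i j : Fin 2) : ℝ :=
  ∑ x : Fin N → Fin 4, ∑ y : Fin N → Fin 4,
    (∏ t, P a (x t) (y t)) * W (fun t => Z (x t) (y t)) k * bit (f x) i * bit (g y) j

/-- The two bits are conditionally independent given the output of Eve's channel. -/
def CondIndep (a : ℝ) {N : ℕ} (f g : (Fin N → Fin 4) → ℝ) (W : (Fin N → Sym) → ℕ → ℝ) : Prop :=
  ∀ k i j, J a f g W k i j * (∑ i', ∑ j', J a f g W k i' j') =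
    (∑ j', J a f g W k i j') * (∑ i', J a f g W k i' j)

/-- Every pair of binarizations of `X^N` and `Y^N` has a channel of `Z^N` given which they are
conditionally independent. -/
def HasChannel (a : ℝ) (N : ℕ) : Prop :=
  ∀ f g : (Fin N → Fin 4) → ℝ, IsBin f → IsBin g →
    ∃ W : (Fin N → Sym) → ℕ → ℝ, IsChannel W ∧ CondIndep a f g W

/-! ### Reduction to one letter -/

theorem sum_one (F : (Fin 1 → Fin 4) → ℝ) : ∑ x, F x = ∑ x : Fin 4, F (fun _ => x) :=
  ((Equiv.funUnique (Fin 1) (Fin 4)).symm.sum_comp F).symm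

theorem J_one (a : ℝ) (f g : (Fin 1 → Fin 4) → ℝ) (W : (Fin 1 → Sym) → ℕ → ℝ) (k : ℕ)
    (i j : Fin 2) : J a f g W k i j = ∑ x : Fin 4, ∑ y : Fin 4,
      (P a x y * W (fun _ => Z x y) k) * bit (f fun _ => x) i * bit (g fun _ => y) j := by
  unfold J
  rw [sum_one]
  refine sum_congr rfl fun x _ => ?_
  rw [sum_one]
  refine sum_congr rfl fun y _ => ?_
  simp

/-- Zero covariance gives independence of the bits. -/
theorem indep_of_cov (c : Fin 4 → Fin 4 → ℝ) (p q : Fin 4 → ℝ)
    (h : Pool.Agent.N226.BI.cov c p q = 0) (K : Fin 2 → Fin 2 → ℝ)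
    (hK : ∀ i j, K i j = ∑ x, ∑ y, c x y * bit (p x) i * bit (q y) j) (i j : Fin 2) :
    K i j * (∑ i', ∑ j', K i' j') = (∑ j', K i j') * (∑ i', K i' j) := by
  have h11 : K 1 1 = ∑ x, ∑ y, c x y * p x * q y := by
    rw [hK]
    rfl
  have h10 : K 1 0 = (∑ x, ∑ y, c x y * p x) - ∑ x, ∑ y, c x y * p x * q y := by
    rw [hK, ← sum_sub_distrib]
    refine sum_congr rfl fun x _ => ?_
    rw [← sum_sub_distrib]
    refine sum_congr rfl fun y _ => ?_
    simp only [bit, if_pos, Fin.isValue, zero_ne_one, if_false]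
    ring
  have h01 : K 0 1 = (∑ x, ∑ y, c x y * q y) - ∑ x, ∑ y, c x y * p x * q y := by
    rw [hK, ← sum_sub_distrib]
    refine sum_congr rfl fun x _ => ?_
    rw [← sum_sub_distrib]
    refine sum_congr rfl fun y _ => ?_
    simp only [bit, if_pos, Fin.isValue, zero_ne_one, if_false]
    ring
  have h00 : K 0 0 = (∑ x, ∑ y, c x y) - (∑ x, ∑ y, c x y * p x) - (∑ x, ∑ y, c x y * q y)
      + ∑ x, ∑ y, c x y * p x * q y := by
    rw [hK, ← sum_sub_distrib, ← sum_sub_distrib, ← sum_add_distrib]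
    refine sum_congr rfl fun x _ => ?_
    rw [← sum_sub_distrib, ← sum_sub_distrib, ← sum_add_distrib]
    refine sum_congr rfl fun y _ => ?_
    simp only [bit, Fin.isValue, zero_ne_one, if_false]
    ring
  unfold Pool.Agent.N226.BI.cov at h
  generalize (∑ x, ∑ y, c x y) = T at h h00
  generalize (∑ x, ∑ y, c x y * p x * q y) = C at h h00 h01 h10 h11
  generalize (∑ x, ∑ y, c x y * p x) = A at h h00 h10
  generalize (∑ x, ∑ y, c x y * q y) = B at h h00 h01
  simp only [Fin.sum_univ_two]
  fin_cases i <;> fin_cases j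
  · simp only [Fin.zero_eta, Fin.isValue]
    rw [h00, h01, h10, h11]
    linear_combination h
  · simp only [Fin.zero_eta, Fin.isValue, Fin.mk_one]
    rw [h00, h01, h10, h11]
    linear_combination -h
  · simp only [Fin.zero_eta, Fin.isValue, Fin.mk_one]
    rw [h00, h01, h10, h11]
    linear_combination -h
  · simp only [Fin.isValue, Fin.mk_one]
    rw [h00, h01, h10, h11]
    linear_combination h

/-! ### The channel -/

/-- The code of a known cell. -/
def code : Sym → ℕ
  | Sum.inl _ => 2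
  | Sum.inr z => 2 + (4 * z.1.val + z.2.val)

/-- A channel with the outputs `0`, `1` (the two groups) and the codes of the known cells. -/
noncomputable def chan (A B : Sym → ℝ) (z : Sym) (k : ℕ) : ℝ :=
  (if k = 0 then A z else 0) + (if k = 1 then B z else 0) + (if k = code z then 1 - A z - B z else 0)

theorem chan_isChannel (A B : Sym → ℝ) (hA : ∀ z, 0 ≤ A z) (hB : ∀ z, 0 ≤ B z)
    (hAB : ∀ z, A z + B z ≤ 1) : IsChannel (N := 1) (fun z k => chan A B (z 0) k) := by
  intro z
  refine ⟨fun k => ?_, ?_⟩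
  · have h1 := hA (z 0)
    have h2 := hB (z 0)
    have h3 := hAB (z 0)
    simp only [chan]
    have i1 : 0 ≤ (if k = 0 then A (z 0) else 0) := by split_ifs <;> linarith
    have i2 : 0 ≤ (if k = 1 then B (z 0) else 0) := by split_ifs <;> linarith
    have i3 : 0 ≤ (if k = code (z 0) then 1 - A (z 0) - B (z 0) else 0) := by
      split_ifs <;> linarith
    linarith
  · have h1 : HasSum (fun k : ℕ => if k = 0 then A (z 0) else 0) (A (z 0)) := hasSum_ite_eq 0 _
    have h2 : HasSum (fun k : ℕ => if k = 1 then B (z 0) else 0) (B (z 0)) := hasSum_ite_eq 1 _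
    have h3 : HasSum (fun k : ℕ => if k = code (z 0) then 1 - A (z 0) - B (z 0) else 0)
        (1 - A (z 0) - B (z 0)) := hasSum_ite_eq _ _
    have h4 := (h1.add h2).add h3
    have h5 : A (z 0) + B (z 0) + (1 - A (z 0) - B (z 0)) = 1 := by ring
    rw [h5] at h4
    exact h4

theorem two_le_code (z : Sym) : 2 ≤ code z := by
  rcases z with z | z <;> simp [code]

theorem chan_zero (A B : Sym → ℝ) (z : Sym) : chan A B z 0 = A z := by
  have h := two_le_code z
  simp only [chan, if_true, zero_ne_one, if_false, add_zero]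
  rw [if_neg (by omega), add_zero]

theorem chan_one (A B : Sym → ℝ) (z : Sym) : chan A B z 1 = B z := by
  have h := two_le_code z
  simp only [chan, if_true, one_ne_zero, if_false, zero_add]
  rw [if_neg (by omega), add_zero]

theorem chan_ge (A B : Sym → ℝ) (z : Sym) {k : ℕ} (hk : 2 ≤ k) :
    chan A B z k = if k = code z then 1 - A z - B z else 0 := by
  simp only [chan]
  rw [if_neg (by omega), if_neg (by omega)]
  ring

/-- The share of a group: `ω b` of the symbol `b` and the mass `E x y` of the known cell `(x, y)`. -/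
noncomputable def share (a : ℝ) (ω : Fin 2 → ℝ) (E : Fin 4 → Fin 4 → ℝ) : Sym → ℝ
  | Sum.inl b => ω b
  | Sum.inr z => E z.1 z.2 / a

theorem mass_eq {a : ℝ} (ha : 0 < a) (ω : Fin 2 → ℝ) (E : Fin 4 → Fin 4 → ℝ) (x y : Fin 4) :
    P a x y * share a ω E (Z x y) =
      (1 / (1 + 8 * a)) * Pool.Agent.N226.BI.mass (ω 0) (ω 1) E x y := by
  have ha' : a ≠ 0 := ha.ne'
  have hb : 1 + 8 * a ≠ 0 := by positivity
  unfold P Pool.Agent.N226.BI.mass w Z
  fin_cases x <;> fin_cases y <;> simp [share] <;> field_simp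

theorem cov_smul (s : ℝ) (c : Fin 4 → Fin 4 → ℝ) (p q : Fin 4 → ℝ) :
    Pool.Agent.N226.BI.cov (fun x y => s * c x y) p q = s ^ 2 * Pool.Agent.N226.BI.cov c p q := by
  unfold Pool.Agent.N226.BI.cov
  simp only [Fin.sum_univ_four]
  ring

/-- A measure that lives on one cell has covariance zero. -/
theorem cov_single (c : Fin 4 → Fin 4 → ℝ) (p q : Fin 4 → ℝ) (x₀ y₀ : Fin 4)
    (h : ∀ x y, ¬ (x = x₀ ∧ y = y₀) → c x y = 0) : Pool.Agent.N226.BI.cov c p q = 0 := by
  have h1 : ∀ u v : Fin 4 → ℝ, ∑ x, ∑ y, c x y * u x * v y = c x₀ y₀ * u x₀ * v y₀ := by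
    intro u v
    rw [sum_eq_single x₀, sum_eq_single y₀]
    · intro y _ hy
      rw [h x₀ y (fun hh => hy hh.2), zero_mul, zero_mul]
    · simp
    · intro x _ hx
      refine sum_eq_zero fun y _ => ?_
      rw [h x y (fun hh => hx hh.1), zero_mul, zero_mul]
    · simp
  unfold Pool.Agent.N226.BI.cov
  have e1 := h1 (fun _ => 1) (fun _ => 1)
  have e2 := h1 p (fun _ => 1)
  have e3 := h1 (fun _ => 1) q
  have e4 := h1 p q
  simp only [mul_one] at e1 e2 e3
  rw [e1, e2, e3, e4]
  ring

theorem condIndep_chan {a : ℝ} (ha : 0 < a) (f g : (Fin 1 → Fin 4) → ℝ) (ω ω' : Fin 2 → ℝ)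
    (E E' : Fin 4 → Fin 4 → ℝ) (hω : ∀ b, ω b + ω' b = 1)
    (h : Pool.Agent.N226.BI.cov (Pool.Agent.N226.BI.mass (ω 0) (ω 1) E)
      (fun x => f fun _ => x) (fun y => g fun _ => y) = 0)
    (h' : Pool.Agent.N226.BI.cov (Pool.Agent.N226.BI.mass (ω' 0) (ω' 1) E')
      (fun x => f fun _ => x) (fun y => g fun _ => y) = 0) :
    CondIndep a f g (fun z k => chan (share a ω E) (share a ω' E') (z 0) k) := by
  intro k
  refine indep_of_cov (fun x y => P a x y * chan (share a ω E) (share a ω' E') (Z x y) k)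
    (fun x => f fun _ => x) (fun y => g fun _ => y) ?_ _ ?_
  · rcases Nat.lt_or_ge k 2 with hk | hk
    · interval_cases k
      · simp only [chan_zero, mass_eq ha]
        rw [cov_smul, h, mul_zero]
      · simp only [chan_one, mass_eq ha]
        rw [cov_smul, h', mul_zero]
    · simp only [chan_ge _ _ _ hk]
      refine cov_single _ _ _ (Fin.ofNat 4 ((k - 2) / 4)) (Fin.ofNat 4 ((k - 2) % 4)) ?_
      intro x y hxy
      rcases hz : Z x y with b | z
      · have := hω b
        simp only [share]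
        split_ifs
        · rw [show 1 - ω b - ω' b = 0 by linarith, mul_zero]
        · rw [mul_zero]
      · have hz' : z = (x, y) := by
          unfold Z at hz
          split_ifs at hz
          exact (Sum.inr_injective hz).symm
        rw [if_neg, mul_zero]
        intro hk'
        apply hxy
        subst hz'
        simp only [code] at hk'
        have hx := x.isLt
        have hy := y.isLt
        constructor
        · apply Fin.ext
          simp only [Fin.ofNat, Fin.val_mk]
          omega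
        · apply Fin.ext
          simp only [Fin.ofNat, Fin.val_mk]
          omega
  · intro i j
    rw [J_one]

theorem hasChannel_one {a : ℝ} (ha : 32 ≤ a) : HasChannel a 1 := by
  intro f g _ _
  have ha0 : 0 < a := by linarith
  have hdiv : ∀ t : ℝ, 0 ≤ t → t ≤ 16 → 0 ≤ t / a ∧ t / a ≤ 1 / 2 := by
    intro t h0 h1
    refine ⟨by positivity, ?_⟩
    rw [div_le_iff₀ ha0]
    linarith
  rcases Pool.Agent.N226.BI.core_raw (fun x => f fun _ => x) (fun y => g fun _ => y) with
    ⟨⟨E, hE, hc⟩, ⟨E', hE', hc'⟩⟩ | ⟨E, hE, hc⟩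
  · refine ⟨fun z k => chan (share a ![1, 0] E) (share a ![0, 1] E') (z 0) k, ?_, ?_⟩
    · refine chan_isChannel _ _ ?_ ?_ ?_
      · rintro (b | z)
        · fin_cases b <;> simp [share]
        · exact (hdiv _ (hE _ _).1 (hE _ _).2).1
      · rintro (b | z)
        · fin_cases b <;> simp [share]
        · exact (hdiv _ (hE' _ _).1 (hE' _ _).2).1
      · rintro (b | z)
        · fin_cases b <;> simp [share]
        · have h1 := (hdiv _ (hE z.1 z.2).1 (hE z.1 z.2).2).2
          have h2 := (hdiv _ (hE' z.1 z.2).1 (hE' z.1 z.2).2).2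
          simp only [share]
          linarith
    · refine condIndep_chan ha0 f g _ _ E E' ?_ hc hc'
      intro b
      fin_cases b <;> simp
  · refine ⟨fun z k => chan (share a ![1, 1] E) (share a ![0, 0] 0) (z 0) k, ?_, ?_⟩
    · refine chan_isChannel _ _ ?_ ?_ ?_
      · rintro (b | z)
        · fin_cases b <;> simp [share]
        · exact (hdiv _ (hE _ _).1 (hE _ _).2).1
      · rintro (b | z)
        · fin_cases b <;> simp [share]
        · simp [share]
      · rintro (b | z)
        · fin_cases b <;> simp [share]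
        · have h1 := (hdiv _ (hE z.1 z.2).1 (hE z.1 z.2).2).2
          simp only [share, Pi.zero_apply, zero_div]
          linarith
    · refine condIndep_chan ha0 f g _ _ E 0 ?_ hc ?_
      · intro b
        fin_cases b <;> simp
      · have : Pool.Agent.N226.BI.mass (![(0 : ℝ), 0] 0) (![(0 : ℝ), 0] 1) 0 = fun _ _ => 0 := by
          funext x y
          unfold Pool.Agent.N226.BI.mass
          simp
        rw [this]
        unfold Pool.Agent.N226.BI.cov
        simp

/-! ### Small `a` -/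

theorem not_hasChannel_one {a : ℝ} (ha : 0 < a) (ha' : a < 1 / 8) : ¬ HasChannel a 1 := by
  intro h
  obtain ⟨W, hW, hI⟩ := h (fun x => if 2 ≤ x 0 then 1 else 0) (fun y => if 2 ≤ y 0 then 1 else 0)
    (fun x => by dsimp only; split_ifs <;> norm_num) (fun x => by dsimp only; split_ifs <;> norm_num)
  have hs : 0 < 1 / (1 + 8 * a) := by positivity
  set s := 1 / (1 + 8 * a) with hsdef
  let V : Sym → ℕ → ℝ := fun z k => W (fun _ => z) k
  have hV0 : ∀ z k, 0 ≤ V z k := fun z k => (hW _).1 k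
  have hV1 : ∀ z, HasSum (V z) 1 := fun z => (hW _).2
  have hJ : ∀ k i j, J a (fun x : Fin 1 → Fin 4 => if 2 ≤ x 0 then (1 : ℝ) else 0)
      (fun y => if 2 ≤ y 0 then (1 : ℝ) else 0) W k i j = ∑ x : Fin 4, ∑ y : Fin 4,
      (P a x y * V (Z x y) k) * bit (if 2 ≤ x then (1 : ℝ) else 0) i *
        bit (if 2 ≤ y then (1 : ℝ) else 0) j := by
    intro k i j
    rw [J_one]
  have key : ∀ k, (V (Sum.inl 0) k + V (Sum.inl 1) k) / 2 ≤
      a * (V (Sum.inr (0, 2)) k + V (Sum.inr (0, 3)) k + V (Sum.inr (1, 2)) k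
        + V (Sum.inr (1, 3)) k + V (Sum.inr (2, 0)) k + V (Sum.inr (2, 1)) k
        + V (Sum.inr (3, 0)) k + V (Sum.inr (3, 1)) k) := by
    intro k
    have h11 : J a (fun x : Fin 1 → Fin 4 => if 2 ≤ x 0 then (1 : ℝ) else 0)
      (fun y => if 2 ≤ y 0 then (1 : ℝ) else 0) W k 1 1 =
        s * ((V (Sum.inl 0) k + V (Sum.inl 1) k) / 4) := by
      rw [hJ]
      simp [Fin.sum_univ_four, bit, P, w, Z, hsdef]
      ring
    have h00 : J a (fun x : Fin 1 → Fin 4 => if 2 ≤ x 0 then (1 : ℝ) else 0)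
      (fun y => if 2 ≤ y 0 then (1 : ℝ) else 0) W k 0 0 =
        s * ((V (Sum.inl 0) k + V (Sum.inl 1) k) / 4) := by
      rw [hJ]
      simp [Fin.sum_univ_four, bit, P, w, Z, hsdef]
      ring
    have h01 : J a (fun x : Fin 1 → Fin 4 => if 2 ≤ x 0 then (1 : ℝ) else 0)
      (fun y => if 2 ≤ y 0 then (1 : ℝ) else 0) W k 0 1 =
        s * (a * (V (Sum.inr (0, 2)) k + V (Sum.inr (0, 3)) k + V (Sum.inr (1, 2)) k
        + V (Sum.inr (1, 3)) k)) := by
      rw [hJ]
      simp [Fin.sum_univ_four, bit, P, w, Z, hsdef]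
      ring
    have h10 : J a (fun x : Fin 1 → Fin 4 => if 2 ≤ x 0 then (1 : ℝ) else 0)
      (fun y => if 2 ≤ y 0 then (1 : ℝ) else 0) W k 1 0 =
        s * (a * (V (Sum.inr (2, 0)) k + V (Sum.inr (2, 1)) k
        + V (Sum.inr (3, 0)) k + V (Sum.inr (3, 1)) k)) := by
      rw [hJ]
      simp [Fin.sum_univ_four, bit, P, w, Z, hsdef]
      ring
    have hI' := hI k 1 1
    simp only [Fin.sum_univ_two] at hI'
    rw [h11, h00, h01, h10] at hI'
    have p1 := hV0 (Sum.inl 0) k
    have p2 := hV0 (Sum.inl 1) k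
    have q1 := hV0 (Sum.inr (0, 2)) k
    have q2 := hV0 (Sum.inr (0, 3)) k
    have q3 := hV0 (Sum.inr (1, 2)) k
    have q4 := hV0 (Sum.inr (1, 3)) k
    have q5 := hV0 (Sum.inr (2, 0)) k
    have q6 := hV0 (Sum.inr (2, 1)) k
    have q7 := hV0 (Sum.inr (3, 0)) k
    have q8 := hV0 (Sum.inr (3, 1)) k
    set c := (V (Sum.inl 0) k + V (Sum.inl 1) k) / 4 with hc
    set u := a * (V (Sum.inr (0, 2)) k + V (Sum.inr (0, 3)) k + V (Sum.inr (1, 2)) k
        + V (Sum.inr (1, 3)) k) with hu
    set v := a * (V (Sum.inr (2, 0)) k + V (Sum.inr (2, 1)) k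
        + V (Sum.inr (3, 0)) k + V (Sum.inr (3, 1)) k) with hv
    have hc0 : 0 ≤ c := by positivity
    have hu0 : 0 ≤ u := by positivity
    have hv0 : 0 ≤ v := by positivity
    have h5 : s ^ 2 * (c * c - u * v) = 0 := by linear_combination hI'
    have h6 : c * c = u * v := by
      rcases mul_eq_zero.1 h5 with h | h
      · exact absurd h (by positivity)
      · linarith
    have h7 : 2 * c ≤ u + v := by
      by_contra hcon
      push Not at hcon
      nlinarith [sq_nonneg (u - v)]
    have h8 : (V (Sum.inl 0) k + V (Sum.inl 1) k) / 2 = 2 * c := by rw [hc]; ring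
    rw [h8]
    refine h7.trans (le_of_eq ?_)
    rw [hu, hv]
    ring
  have s1 : HasSum (fun k => (V (Sum.inl 0) k + V (Sum.inl 1) k) / 2) ((1 + 1) / 2) :=
    ((hV1 _).add (hV1 _)).div_const 2
  have s2 : HasSum (fun k => a * (V (Sum.inr (0, 2)) k + V (Sum.inr (0, 3)) k
        + V (Sum.inr (1, 2)) k + V (Sum.inr (1, 3)) k + V (Sum.inr (2, 0)) k
        + V (Sum.inr (2, 1)) k + V (Sum.inr (3, 0)) k + V (Sum.inr (3, 1)) k))
      (a * (1 + 1 + 1 + 1 + 1 + 1 + 1 + 1)) :=
    ((((((((hV1 _).add (hV1 _)).add (hV1 _)).add (hV1 _)).add (hV1 _)).add (hV1 _)).add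
      (hV1 _)).add (hV1 _)).mul_left a
  have := hasSum_le key s1 s2
  linarith

/-- For `a ≥ 32` every pair of binarizations of `X` and `Y` (one letter) has a channel of `Z` that makes
them conditionally independent; for `0 < a < 1/8` this is not so. -/
theorem result : (∀ a : ℝ, 32 ≤ a → HasChannel a 1) ∧
    (∀ a : ℝ, 0 < a → a < 1 / 8 → ¬ HasChannel a 1) :=
  ⟨fun _ ha => hasChannel_one ha, fun _ ha ha' => not_hasChannel_one ha ha'⟩

end Pool.Agent.Results.MP_c084cb_lc.SingleLetter
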